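import Mathlib

set_option autoImplicit false

namespace Pool.Agent.Results.MP_e761a2_pr.NoLimit

open Filter Topology SimpleGraph

noncomputable section

/-- `H` is a minor of `G`: there are pairwise disjoint connected branch sets, joined by an edge of
`G` whenever the corresponding vertices of `H` are adjacent. -/
def IsMinor {W V : Type} (H : SimpleGraph W) (G : SimpleGraph V) : Prop :=
  ∃ B : W → Set V, (∀ a, (G.induce (B a)).Connected) ∧ (∀ a b, a ≠ b → Disjoint (B a) (B b)) ∧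
    ∀ a b, H.Adj a b → ∃ u ∈ B a, ∃ v ∈ B b, G.Adj u v

/-- Finite graphs, on a vertex set `Fin m`. -/
abbrev FG := Σ m : ℕ, SimpleGraph (Fin m)

/-- Finite rooted graphs, on a vertex set `Fin m`. -/
abbrev RG := Σ m : ℕ, SimpleGraph (Fin m) × Fin m

/-- Rooted isomorphism. -/
def iso : Setoid RG where
  r x y := ∃ φ : x.2.1 ≃g y.2.1, φ x.2.2 = y.2.2
  iseqv := ⟨fun _ => ⟨Iso.refl, rfl⟩, fun ⟨φ, h⟩ => ⟨φ.symm, by simp [← h]⟩,
    fun ⟨φ, h⟩ ⟨ψ, k⟩ => ⟨φ.trans ψ, by simp [h, k]⟩⟩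

/-- The connected rooted graphs on the vertex set `Fin n` with no minor in `S`. -/
def Ex (S : Set FG) (n : ℕ) : Set RG :=
  {x | x.1 = n ∧ x.2.1.Connected ∧ ∀ H ∈ S, ¬ IsMinor H.2 x.2.1}

/-- Probability of `A` in the labelled model. -/
def lab (S : Set FG) (n : ℕ) (A : Set RG) : ℝ := ((Ex S n ∩ A).ncard : ℝ) / (Ex S n).ncard

/-- Probability of an isomorphism-invariant `A` in the unlabelled model. -/
def unlab (S : Set FG) (n : ℕ) (A : Set RG) : ℝ :=
  ((Quotient.mk iso '' (Ex S n ∩ A)).ncard : ℝ) / (Quotient.mk iso '' Ex S n).ncard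

/-- The rooted graphs whose ball of radius `r` about the root is rooted-isomorphic to `H`. -/
def ballIs (r : ℕ) (H : RG) : Set RG :=
  {x | ∃ φ : x.2.1.induce {v | x.2.1.edist x.2.2 v ≤ r} ≃g H.2.1, ∀ h, φ ⟨x.2.2, h⟩ = H.2.2}

/-- Weak local convergence: for every `r` the probabilities `Pr[B_r(R_n) ≅ H]` converge and the
limits sum to `1` over the isomorphism classes `H`. -/
def Conv (pr : ℕ → Set RG → ℝ) : Prop :=
  ∀ r, ∃ p : Quotient iso → ℝ,
    (∀ H : RG, Tendsto (fun n => pr n (ballIs r H)) atTop (𝓝 (p (Quotient.mk iso H)))) ∧ HasSum p 1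

lemma diam {V : Type} {G : SimpleGraph V} (hc : G.Connected) (h : ¬ IsMinor (pathGraph 4) G)
    (u v : V) : G.edist u v ≤ (2 : ℕ) := by
  obtain ⟨p, hp, hl⟩ := hc.exists_path_of_dist u v
  rw [← (hc u v).coe_dist_eq_edist, Nat.cast_le, ← hl]
  by_contra h3
  refine h ⟨fun a => {p.getVert a}, fun a => by simp, fun a b hab => ?_, fun a b hab => ?_⟩
  · rw [Set.disjoint_singleton]
    exact fun e => hab (Fin.ext (hp.getVert_injOn (show a.1 ≤ p.length by omega)
      (show b.1 ≤ p.length by omega) e))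
  · refine ⟨_, rfl, _, rfl, ?_⟩
    rcases pathGraph_adj.1 hab with e | e
    · rw [← e]
      exact p.adj_getVert_succ (by omega)
    · rw [← e]
      exact (p.adj_getVert_succ (by omega)).symm

lemma empty (H : RG) {n : ℕ} (hn : H.1 < n) : Ex {⟨4, pathGraph 4⟩} n ∩ ballIs 2 H = ∅ := by
  refine Set.eq_empty_of_forall_notMem fun x ⟨⟨h1, h2, h3⟩, φ, _⟩ => ?_
  have h4 : {v | x.2.1.edist x.2.2 v ≤ (2 : ℕ)} = Set.univ :=
    Set.eq_univ_of_forall (diam h2 (h3 _ rfl) _)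
  have h5 := Nat.card_congr φ.toEquiv
  rw [h4] at h5
  simp at h5
  omega

def star (n : ℕ) : SimpleGraph (Fin (n + 1)) := fromRel fun a _ => a = 0

lemma star_mem (n : ℕ) : (⟨n + 1, star n, 0⟩ : RG) ∈ Ex {⟨4, pathGraph 4⟩} (n + 1) := by
  refine ⟨rfl, ?_, ?_⟩
  · rw [connected_iff_exists_forall_reachable]
    refine ⟨0, fun w => ?_⟩
    by_cases h : 0 = w
    · rw [h]
    · exact Adj.reachable ((fromRel_adj _ _ _).2 ⟨h, Or.inl rfl⟩)
  · rintro _ rfl ⟨B, -, h1, h2⟩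
    obtain ⟨a, a0, b, b0, e1⟩ := h2 0 1 (pathGraph_adj.2 (Or.inl rfl))
    obtain ⟨c, c0, d, d0, e2⟩ := h2 2 3 (pathGraph_adj.2 (Or.inl rfl))
    rcases ((fromRel_adj _ _ _).1 e1).2 with rfl | rfl <;>
      rcases ((fromRel_adj _ _ _).1 e2).2 with rfl | rfl
    exacts [Set.disjoint_left.1 (h1 0 2 (by decide)) a0 c0, Set.disjoint_left.1 (h1 0 3 (by decide)) a0 d0,
      Set.disjoint_left.1 (h1 1 2 (by decide)) b0 c0, Set.disjoint_left.1 (h1 1 3 (by decide)) b0 d0]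

lemma not_conv {pr : ℕ → Set RG → ℝ} (h : ∀ H : RG, ∀ n, H.1 < n → pr n (ballIs 2 H) = 0) :
    ¬ Conv pr := by
  intro hc
  obtain ⟨p, h1, h2⟩ := hc 2
  have : p = 0 := funext fun q => by
    induction q using Quotient.ind with
    | _ H => exact tendsto_nhds_unique (h1 H) (tendsto_const_nhds.congr'
        ((eventually_gt_atTop H.1).mono fun n hn => (h H n hn).symm))
  rw [this] at h2
  simpa using h2.unique hasSum_zero

theorem result : ∃ S : Set FG, S.Finite ∧ S.Nonempty ∧ (∀ H ∈ S, H.2.Connected) ∧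
    (∀ n, 1 ≤ n → (Ex S n).Nonempty) ∧ ¬ Conv (lab S) ∧ ¬ Conv (unlab S) := by
  refine ⟨{⟨4, pathGraph 4⟩}, Set.finite_singleton _, Set.singleton_nonempty _, ?_, fun n hn => ?_,
    not_conv fun H n hn => by simp [lab, empty H hn], not_conv fun H n hn => by simp [unlab, empty H hn]⟩
  · rintro _ rfl
    exact pathGraph_connected 3
  · obtain ⟨n, rfl⟩ : ∃ m, n = m + 1 := ⟨n - 1, by omega⟩
    exact ⟨_, star_mem n⟩

end

end Pool.Agent.Results.MP_e761a2_pr.NoLimit
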